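import Pool.Agent.W_4481e3_q87.GoR
import Pool.Agent.W_4481e3_tab.T2

/-!
Tree s21o2, data 2.
-/

namespace Pool.Agent.W_4481e3_rt.s21o2

open Pool.Agent.W_4481e3_q25.EvR

theorem k39 : ckO Pool.Agent.W_4481e3_tab.T2.tab 10848 12432 268435456 65536 92733 131072 21 2621440 524288 1572864 524288 508181872 508181872 28689040 28689040 268435456 268435456 16777216 16777216 132383 132383 0x100000c00001c200001c00001c01001c2100001c00001c01001c01001c03000c212100001c00001c01001c2100001c00001c01001c0901ed00001c32100001c07004d04002f212120300ec01001c03001c992182dd87a5fc720300ac03001d9903001d12103001c403001c03001c941321203006c03007c103001d0300ec105007c05007c05007c205007c1205007c05007c21204007c04007c105007c05007c205007c05007c2121219929999212182e8b7a6fa70901ed904002f230a039d129992190a039d290d042d109007d212999194293999219920701dc19493210b042d90803ac2108007d20803ac04002f104002f404002f304002f2104002f405002f04002f304002f43210a039d08007d04002f212104002f04002f120601dc05007c10701dc0701dc1205007c0601dc0601dc12104002f499206002f04002f3103001c4305002f04002f104002f404002f304002f405002f04002f484daa7ac4073205007c05007c05007c1205007c05007c2104002f04002f304002f404002f32104002f04002f104002f3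205007c05007c105002f04002f1205007c05007c104002f2305007c07007c104002f206002f04002f23104002f04002f32859d97b1647104002f04002f04002f21212840f87aba471201001c01001c03000c203000c03000c21202000c03000c03007c203000c03007c03007c1212103007c03000c03007c2104007c04007c105007c05007c205007c05007c05007c121204007c04007c105007c05007c07007c1204007c05002f04002f32121203000c03007c203000c04007c2104007c04007c104007c04002f04002f3204007c04007c108015f2847a07be2071204007c04007c104007c05007c1856ba7bc59708015f07003f1205007c05007c106003f06003f1212121851c37c54c705007c05007c105002f205007c05002f104002f2104002f205002f04002f104002f204002f4304002f04002f104002f404002f04002f4306003f2104002f04002f28516f7eae4704002f12854927ba9c704002f04002f3b205003fb1b21b21203000c04007c203007c04007c04007c12104007c04007c05007c2104007c05007c104002f06003f06003f13205007c05007c107007db121868d17c05c7204007c05007c205007c05007c2105007c05007c1bb1205007c05007c1b2121203007c03007c105042c04007c05007c21204007c03007c04007c2105007c05007c205007c05007c105007c05007c05007c21212105007c05007c205007c05007c2107000c07007c1b207007d05007cb21b21205007c05007c05007c05007c21205007c05007c207007c05007c0601dc12105007c0601dc20501dc0601dc10601dc0701dc1212105007cb205007cb1b21b287f4a7ebf07bb1b2121286b977ed7971bb1b2bb1b21287d297c7fb712121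 = true := by decide +kernel

end Pool.Agent.W_4481e3_rt.s21o2
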